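import Pool.Agent.W192.CY.Stm

/-! Project CY (helper192): orthogonality for the characters with `χ ^ e = 1`. -/

set_option autoImplicit false

open Finset

namespace Pool.Agent.W410.CY

open Pool.Agent.W192.CY

lemma mem_Ch {q : ℕ} [NeZero q] {e : ℕ} {χ : DirichletCharacter ℂ q} :
    χ ∈ Ch q e ↔ χ ^ e = 1 := by
  unfold Ch
  rw [Set.Finite.mem_toFinset]
  rfl

lemma card_Ch (q : ℕ) [Fact q.Prime] (e : ℕ) (he : e ∣ q - 1) : (Ch q e).card = e := by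
  obtain ⟨φ⟩ := DirichletCharacter.mulEquiv_units ℂ q
  have hcyc : IsCyclic (DirichletCharacter ℂ q) := φ.isCyclic.2 inferInstance
  have hfin : Finite (DirichletCharacter ℂ q) := inferInstance
  have hcard : Nat.card (DirichletCharacter ℂ q) = q - 1 := by
    rw [Nat.card_congr φ.toEquiv, Nat.card_eq_fintype_card, ZMod.card_units]
  have h1 := IsCyclic.card_powMonoidHom_ker (G := DirichletCharacter ℂ q) e
  rw [hcard, Nat.gcd_eq_right he] at h1
  have h2 : (Ch q e).card = Nat.card {χ : DirichletCharacter ℂ q | χ ^ e = 1} := by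
    unfold Ch
    rw [Nat.card_coe_set_eq, Set.ncard_eq_toFinset_card _ (Set.toFinite _)]
  rw [h2]
  exact h1

lemma sum_mem (q : ℕ) [Fact q.Prime] (e : ℕ) (he : e ∣ q - 1) (x : (ZMod q)ˣ) (hx : x ∈ Hs q e) :
    ∑ χ ∈ Ch q e, χ (x : ZMod q) = (e : ℂ) := by
  rw [sum_congr rfl (fun χ hχ => hx χ (mem_Ch.1 hχ)), sum_const, card_Ch q e he]
  simp

lemma sum_not_mem (q : ℕ) [Fact q.Prime] (e : ℕ) (x : (ZMod q)ˣ) (hx : x ∉ Hs q e) :
    ∑ χ ∈ Ch q e, χ (x : ZMod q) = 0 := by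
  have hx' : ¬ ∀ χ : DirichletCharacter ℂ q, χ ^ e = 1 → χ (x : ZMod q) = 1 := hx
  push Not at hx'
  obtain ⟨χ₀, h0, h1⟩ := hx'
  have h2 : ∑ χ ∈ Ch q e, χ (x : ZMod q) = ∑ χ ∈ Ch q e, (χ₀ * χ) (x : ZMod q) := by
    symm
    refine sum_bij' (fun χ _ => χ₀ * χ) (fun χ _ => χ₀⁻¹ * χ) ?_ ?_ ?_ ?_ ?_
    · intro χ hχ
      rw [mem_Ch] at hχ ⊢
      rw [mul_pow, h0, hχ, one_mul]
    · intro χ hχ
      rw [mem_Ch] at hχ ⊢
      rw [mul_pow, inv_pow, h0, hχ, inv_one, one_mul]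
    · intro χ _
      rw [inv_mul_cancel_left]
    · intro χ _
      rw [mul_inv_cancel_left]
    · intro χ _
      rfl
  have h3 : ∑ χ ∈ Ch q e, (χ₀ * χ) (x : ZMod q) =
      χ₀ (x : ZMod q) * ∑ χ ∈ Ch q e, χ (x : ZMod q) := by
    rw [mul_sum]
    rfl
  rw [h3] at h2
  have h4 : (1 - χ₀ (x : ZMod q)) * ∑ χ ∈ Ch q e, χ (x : ZMod q) = 0 := by
    linear_combination h2
  rcases mul_eq_zero.1 h4 with h | h
  · exact absurd (sub_eq_zero.1 h).symm h1
  · exact h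

lemma sum_units (q : ℕ) [Fact q.Prime] (χ : DirichletCharacter ℂ q) :
    ∑ x : (ZMod q)ˣ, χ (x : ZMod q) = if χ = 1 then ((q - 1 : ℕ) : ℂ) else 0 := by
  split_ifs with h
  · subst h
    rw [← ZMod.card_units q]
    simp
  · obtain ⟨y, hy⟩ := MulChar.ne_one_iff.1 h
    have h2 : ∑ x : (ZMod q)ˣ, χ (x : ZMod q) = χ (y : ZMod q) * ∑ x : (ZMod q)ˣ, χ (x : ZMod q) := by
      rw [mul_sum, ← Equiv.sum_comp (Equiv.mulLeft y)]
      apply sum_congr rfl
      intro x _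
      rw [Equiv.coe_mulLeft, Units.val_mul, map_mul]
    have h4 : (1 - χ (y : ZMod q)) * ∑ x : (ZMod q)ˣ, χ (x : ZMod q) = 0 := by
      linear_combination h2
    rcases mul_eq_zero.1 h4 with h' | h'
    · exact absurd (sub_eq_zero.1 h').symm hy
    · exact h'

theorem t_orth : S_ORTH := by
  intro q hq e he
  refine ⟨?_, fun x => ⟨sum_mem q e he x, sum_not_mem q e x⟩⟩
  classical
  have h1 : ∑ x : (ZMod q)ˣ, ∑ χ ∈ Ch q e, χ (x : ZMod q) =
      ((Nat.card (Hs q e) : ℕ) : ℂ) * e := by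
    have h2 : ∀ x : (ZMod q)ˣ, ∑ χ ∈ Ch q e, χ (x : ZMod q) =
        if x ∈ Hs q e then (e : ℂ) else 0 := by
      intro x
      split_ifs with h
      · exact sum_mem q e he x h
      · exact sum_not_mem q e x h
    rw [sum_congr rfl (fun x _ => h2 x), ← sum_filter, sum_const, nsmul_eq_mul]
    congr 2
    rw [Nat.card_eq_fintype_card, Fintype.card_subtype]
  have h3 : ∑ x : (ZMod q)ˣ, ∑ χ ∈ Ch q e, χ (x : ZMod q) = ((q - 1 : ℕ) : ℂ) := by
    rw [sum_comm, sum_congr rfl (fun χ _ => sum_units q χ), sum_ite_eq' (Ch q e), if_pos]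
    rw [mem_Ch, one_pow]
  rw [h1] at h3
  have h4 : Nat.card (Hs q e) * e = q - 1 := by exact_mod_cast h3
  rw [mul_comm]
  exact h4

end Pool.Agent.W410.CY
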